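import Pool.Agent.MWH.StmtsC
import Pool.Agent.MWS.StmtsA

/-!
Block MWH, row EL5 (MP_23468a_al).
-/

namespace Pool.Agent.MWH.H80

open Pool.Agent.Helper14_MV Pool.Agent.Helper2_MV Pool.Agent.MVO Pool.Agent.MWL Pool.Agent.MWS
  Pool.Agent.MWH

/-- the list of edges is empty -/
theorem eg_nil {β : FIC} {k : ℕ} {a b : ℕ → ℕ} {i : ℕ} {s s' : Stt} (h : Tr β k a b i s s') :
    Eg β k a b i s s' :=
  ⟨[], by simp, fun θ hle _ => ⟨fun _ => by simp, fun _ => hle _ _ h⟩⟩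

/-- one edge -/
theorem eg_one {β : FIC} {k : ℕ} {a b : ℕ → ℕ} {i : ℕ} {s s' : Stt} {k' : ℕ} {la lb : List ℕ}
    {i' : ℕ} (hj : JPp β (ce k' la lb i' s s'))
    (h : ∀ θ : FIC, β ≤ θ → (Tr θ k a b i s s' ↔ Ce θ k' la lb i' s s')) :
    Eg β k a b i s s' := by
  refine ⟨[ce k' la lb i' s s'], ?_, fun θ hle _ => ?_⟩
  · intro e he
    rw [List.mem_singleton] at he
    rw [he]
    exact hj
  · rw [h θ hle]
    constructor
    · intro h1 e he
      rw [List.mem_singleton] at he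
      rw [he]
      exact h1
    · intro h1
      exact h1 _ (List.mem_singleton.2 rfl)

theorem lb_pos {b : ℕ → ℕ} {q j : ℕ} (hq : q < j) (hb : b q ≠ 0) : 1 ≤ lb b j := by
  unfold lb
  exact Finset.card_pos.2 ⟨q, Finset.mem_filter.2 ⟨Finset.mem_range.2 hq, hb⟩⟩

theorem el5 (lrn : Pool.Agent.MWS.LrnStmt) (lt4 : Lt4Stmt) (bj5 : Bj5Stmt) (lhl : LhlStmt)
    (ux2 : Ux2Stmt) (ux3 : Ux3Stmt) (jx2 : Jx2Stmt) (jx3 : Jx3Stmt) : El5Stmt := by
  intro β h5 k a b i p hV hN hL hb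
  have hS : S8 β := h5.toS8
  have hH : BaseH β := hS.toBaseH
  have hLR : LR 1 (FC.ofFIC β) := lrn β β hH.toBaseR (fun _ _ h => h)
  obtain ⟨hSJ, hD1⟩ := bj5 β h5
  have hJ3 := hSJ.2
  have hnl : ∀ u v, ¬ LL2 k b u v := by
    intro u v h
    by_cases h1 : i = u
    · have := h.au
      rw [← h1] at this
      omega
    · by_cases h2 : i = v
      · have := h.av
        rw [← h2] at this
        omega
      · have := h.az i hV.ik h1 h2
        omega
  obtain ⟨t1, t2, t3⟩ := lhl β hS k a b i p hV hL.av hb hL.uv (by rw [hL.au]; omega)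
  refine ⟨eg_nil t1, ?_⟩
  by_cases c1 : ∃ m, i < m ∧ m ≤ k ∧ b m ≠ 0
  · obtain ⟨m, h1, h2, h3⟩ := c1
    have h4 : 2 ≤ b m := (lt4 _ hLR k b hN hV.db m h2 h3).1 ⟨i, h1.le, hb⟩
    exact eg_nil (t2 ⟨m, h1, h2, h4⟩ _ _ (fun h => absurd h (by decide))
      (fun _ => Or.inr hb))
  · have c1' : ∀ j, i < j → j ≤ k → b j = 0 := by
      intro j h1 h2
      by_contra h3
      exact c1 ⟨j, h1, h2, h3⟩
    by_cases c2 : ∃ q, q < p ∧ 2 ≤ b q
    · exact eg_nil (t3 c2 _ _ (fun h => absurd h (by decide)) (fun _ => Or.inr hb))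
    · have c2' : ∀ j, j < p → b j ≤ 1 := by
        intro j hj
        by_contra h3
        exact c2 ⟨j, hj, by omega⟩
      have hpk : p ≤ k := hL.uv.le.trans hV.ik
      have huniq : ∀ x y, x < y → y < p → b x ≠ 0 → b y ≠ 0 → False := by
        intro x y hxy hy hbx hby
        have h3 := (lt4 _ hLR k b hN hV.db y (by omega) hby).2.2 hJ3 hD1 hnl (lb_pos hxy hbx)
        have := c2' y hy
        omega
      by_cases c3 : ∃ q, q < p ∧ b q ≠ 0
      · obtain ⟨q, hq, hbq⟩ := c3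
        refine eg_one (jx3 β hS) (fun θ hle => ux3 β θ hH hle k a b i p hV hL hb ?_ c1')
        refine ⟨q, hq, by have := c2' q hq; omega, fun j hj hjq => ?_⟩
        by_contra h3
        rcases Nat.lt_or_gt_of_ne hjq with h4 | h4
        · exact huniq j q h4 hq h3 hbq
        · exact huniq q j h4 hj hbq h3
      · refine eg_one (jx2 β hS) (fun θ hle => ux2 β θ hH hle k a b i p hV hL hb ?_ c1')
        intro j hj
        by_contra h3
        exact c3 ⟨j, hj, h3⟩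

end Pool.Agent.MWH.H80
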